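import Pool.Agent.Helper52.KP.StN

/-!
# KP, module IPP: the Hermitian form on the functions on the orbit
-/

set_option autoImplicit false

namespace Pool.Agent.Helper58.KP

open MeasureTheory Filter Pool.Agent.Helper52.KP
open scoped ContDiff ComplexOrder Topology

private lemma evc {m : ℕ} (P : MvPolynomial (Fin m) ℂ) : Continuous (fun z => ev P z) :=
  MvPolynomial.continuous_eval P

private lemma isOpenU (C : Cone) : IsOpen C.U :=
  (isClosed_singleton (x := (0 : ℂ))).isOpen_compl.preimage (evc C.Δ)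

private lemma exp_meas (C : Cone) (hC : Good C) :
    AEStronglyMeasurable (fun z => (Real.exp (-C.u z) : ℂ)) (volume.restrict C.U) := by
  have h1 : ContinuousOn C.u C.U := hC.usm.continuousOn
  have h2 : ContinuousOn (fun z => (Real.exp (-C.u z) : ℂ)) C.U :=
    Complex.continuous_ofReal.comp_continuousOn (Real.continuous_exp.comp_continuousOn h1.neg)
  exact h2.aestronglyMeasurable (isOpenU C).measurableSet

private lemma integ (C : Cone) (hC : Good C) (F G : (Fin C.m → ℂ) → ℂ)
    (hF : L2 C.U C.u F) (hG : L2 C.U C.u G) :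
    IntegrableOn (fun z => F z * star (G z) * (Real.exp (-C.u z) : ℂ)) C.U := by
  have hm : AEStronglyMeasurable (fun z => F z * star (G z) * (Real.exp (-C.u z) : ℂ))
      (volume.restrict C.U) :=
    (hF.1.mul (continuous_star.comp_aestronglyMeasurable hG.1)).mul (exp_meas C hC)
  refine Integrable.mono' (hF.2.add hG.2) hm (Eventually.of_forall fun z => ?_)
  have h0 : 0 ≤ Real.exp (-C.u z) := (Real.exp_pos _).le
  have h1 : ‖F z * star (G z) * (Real.exp (-C.u z) : ℂ)‖ = ‖F z‖ * ‖G z‖ * Real.exp (-C.u z) := by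
    rw [norm_mul, norm_mul, norm_star, Complex.norm_real, Real.norm_of_nonneg h0]
  rw [h1]
  have h2 : ‖F z‖ * ‖G z‖ ≤ ‖F z‖ ^ 2 + ‖G z‖ ^ 2 := by
    nlinarith [sq_nonneg (‖F z‖ - ‖G z‖), sq_nonneg ‖F z‖, sq_nonneg ‖G z‖]
  have h3 := mul_le_mul_of_nonneg_right h2 h0
  simp only [Pi.add_apply]
  linarith

private lemma rot_mp (c : ℂ) (hc : ‖c‖ = 1) :
    MeasurePreserving (fun z : ℂ => c * z) volume volume := by
  have h := (rotation (⟨c, by simp [Submonoid.unitSphere, hc]⟩ : Circle)).measurePreserving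
  exact h

private lemma scl_mp {m : ℕ} (w : Fin m → ℕ) (c : ℂ) (hc : ‖c‖ = 1) :
    MeasurePreserving (scl w c) volume volume := by
  have h : ∀ j : Fin m, MeasurePreserving (fun z : ℂ => c ^ w j * z) volume volume := fun j =>
    rot_mp _ (by rw [norm_pow, hc, one_pow])
  exact volume_preserving_pi h

private lemma scl_scl {m : ℕ} (w : Fin m → ℕ) (c d : ℂ) (hcd : c * d = 1) (z : Fin m → ℂ) :
    scl w c (scl w d z) = z := by
  funext j
  simp only [scl]
  rw [← mul_assoc, ← mul_pow, hcd, one_pow, one_mul]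

private lemma scl_emb {m : ℕ} (w : Fin m → ℕ) (c : ℂ) (hc : ‖c‖ = 1) :
    MeasurableEmbedding (scl w c) := by
  have hc0 : c ≠ 0 := by
    intro h
    rw [h, norm_zero] at hc
    exact zero_ne_one hc
  have hcont : ∀ d : ℂ, Continuous (scl w d) := by
    intro d
    refine continuous_pi fun j => ?_
    exact continuous_const.mul (continuous_apply j)
  let e : (Fin m → ℂ) ≃ₜ (Fin m → ℂ) :=
    { toFun := scl w c
      invFun := scl w c⁻¹
      left_inv := fun z => scl_scl w _ _ (inv_mul_cancel₀ hc0) z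
      right_inv := fun z => scl_scl w _ _ (mul_inv_cancel₀ hc0) z
      continuous_toFun := hcont c
      continuous_invFun := hcont c⁻¹ }
  exact e.measurableEmbedding

private lemma scl_pre (C : Cone) (hC : Good C) (c : ℂ) (hc : c ≠ 0) :
    scl C.w c ⁻¹' C.U = C.U := by
  ext z
  constructor
  · intro hz
    have h := hC.sclU c⁻¹ (inv_ne_zero hc) _ hz
    rwa [scl_scl C.w _ _ (inv_mul_cancel₀ hc)] at h
  · intro hz
    exact hC.sclU c hc z hz

private lemma scl_int (C : Cone) (hC : Good C) (c : ℂ) (hc : ‖c‖ = 1)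
    (H : (Fin C.m → ℂ) → ℂ) : ∫ z in C.U, H (scl C.w c z) = ∫ z in C.U, H z := by
  have hc0 : c ≠ 0 := by
    intro h
    rw [h, norm_zero] at hc
    exact zero_ne_one hc
  have h := (scl_mp C.w c hc).setIntegral_preimage_emb (scl_emb C.w c hc) H C.U
  rwa [scl_pre C hC c hc0] at h

private lemma exists_c (k k' : ℕ) (hk : k ≠ k') :
    ∃ c : ℂ, ‖c‖ = 1 ∧ c ^ k * star (c ^ k') = -1 := by
  have hd : ((k : ℝ) - k') ≠ 0 := by
    intro h
    exact hk (by exact_mod_cast sub_eq_zero.mp h)
  refine ⟨Complex.exp (((Real.pi / ((k : ℝ) - k') : ℝ) : ℂ) * Complex.I), ?_, ?_⟩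
  · exact Complex.norm_exp_ofReal_mul_I _
  · have h1 : star (Complex.exp (((Real.pi / ((k : ℝ) - k') : ℝ) : ℂ) * Complex.I) ^ k') =
        Complex.exp (-(((k' : ℂ)) * ((((Real.pi / ((k : ℝ) - k') : ℝ) : ℂ)) * Complex.I))) := by
      rw [← Complex.exp_nat_mul]
      rw [Complex.star_def, ← Complex.exp_conj]
      congr 1
      rw [map_mul, map_mul, Complex.conj_ofReal, Complex.conj_I, Complex.conj_natCast]
      ring
    rw [h1, ← Complex.exp_nat_mul, ← Complex.exp_add]
    have h2 : (k : ℂ) * (((Real.pi / ((k : ℝ) - k') : ℝ) : ℂ) * Complex.I) +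
        -((k' : ℂ) * (((Real.pi / ((k : ℝ) - k') : ℝ) : ℂ) * Complex.I)) =
        Real.pi * Complex.I := by
      have h3 : (k : ℂ) - k' ≠ 0 := by
        intro h
        apply hd
        have : (((k : ℝ) - k' : ℝ) : ℂ) = 0 := by push_cast; exact h
        exact_mod_cast this
      push_cast
      field_simp
      ring
    rw [h2, Complex.exp_pi_mul_I]

theorem hIPP (hMOM : StMOM) : StIPP := by
  intro C hC
  have hL : ∀ k, ∀ s ∈ C.R k, L2 C.U C.u (fun z => ev s z * ev C.J z) := (hMOM C hC).2.2.2
  refine ⟨?_, ?_, ?_, ?_, ?_⟩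
  · intro k f hf g hg h hh
    have i1 := integ C hC _ _ (hL k f hf) (hL k h hh)
    have i2 := integ C hC _ _ (hL k g hg) (hL k h hh)
    unfold ipp inn
    rw [← integral_add i1 i2]
    congr 1
    funext z
    simp only [ev, map_add]
    ring
  · intro k f _ h _ c
    unfold ipp inn
    rw [← integral_const_mul]
    congr 1
    funext z
    simp only [ev, MvPolynomial.smul_eval]
    ring
  · intro f g
    unfold ipp inn
    rw [Complex.star_def, ← integral_conj]
    congr 1
    funext z
    simp only [Complex.star_def, map_mul, Complex.conj_conj, Complex.conj_ofReal]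
    ring
  · intro k f hf hf0
    have hint := (hL k f hf).2
    have e1 : ipp C f f =
        ((∫ z in C.U, ‖ev f z * ev C.J z‖ ^ 2 * Real.exp (-C.u z) : ℝ) : ℂ) := by
      unfold ipp inn
      rw [← integral_complex_ofReal]
      congr 1
      funext z
      rw [Complex.star_def, Complex.mul_conj, Complex.normSq_eq_norm_sq]
      push_cast
      ring
    rw [e1]
    refine ⟨?_, Complex.ofReal_im _⟩
    rw [Complex.ofReal_re]
    rw [setIntegral_pos_iff_support_of_nonneg_ae (Eventually.of_forall fun z => by positivity) hint]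
    have hne : f * C.Δ ≠ 0 := mul_ne_zero hf0 hC.Δ0
    have hex : ∃ z : Fin C.m → ℂ, ev (f * C.Δ) z ≠ 0 := by
      by_contra hcon
      push Not at hcon
      exact hne (MvPolynomial.funext fun z => by rw [map_zero]; exact hcon z)
    have hopen : IsOpen {z : Fin C.m → ℂ | ev (f * C.Δ) z ≠ 0} :=
      (isClosed_singleton (x := (0 : ℂ))).isOpen_compl.preimage (evc _)
    refine lt_of_lt_of_le (hopen.measure_pos volume hex) (measure_mono ?_)
    intro z hz
    have hz' : ev f z * ev C.Δ z ≠ 0 := by
      have : ev (f * C.Δ) z ≠ 0 := hz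
      simpa only [ev, map_mul] using this
    have hU : z ∈ C.U := right_ne_zero_of_mul hz'
    refine ⟨?_, hU⟩
    rw [Function.mem_support]
    have hfz : ev f z * ev C.J z ≠ 0 := mul_ne_zero (left_ne_zero_of_mul hz') (hC.J0 z hU)
    have : 0 < ‖ev f z * ev C.J z‖ := norm_pos_iff.mpr hfz
    positivity
  · intro k k' hk f hf g hg
    obtain ⟨c, hc, hcc⟩ := exists_c k k' hk
    have hc0 : c ≠ 0 := by
      intro h
      rw [h, norm_zero] at hc
      exact zero_ne_one hc
    have h1 := scl_int C hC c hc (fun z => (ev f z * ev C.J z) * star (ev g z * ev C.J z) *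
      (Real.exp (-C.u z) : ℂ))
    have h2 : ∫ z in C.U, (fun z => (ev f z * ev C.J z) * star (ev g z * ev C.J z) *
        (Real.exp (-C.u z) : ℂ)) (scl C.w c z) =
        ∫ z in C.U, -((ev f z * ev C.J z) * star (ev g z * ev C.J z) *
        (Real.exp (-C.u z) : ℂ)) := by
      refine setIntegral_congr_fun (isOpenU C).measurableSet fun z hz => ?_
      simp only
      rw [hC.hom k f hf c z, hC.hom k' g hg c z, hC.Jhom c z, hC.uhom z hz c hc0, hc, one_mul]
      have h3 : c ^ C.jd * star (c ^ C.jd) = 1 := by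
        rw [Complex.star_def, Complex.mul_conj, Complex.normSq_eq_norm_sq, norm_pow, hc, one_pow,
          one_pow, Complex.ofReal_one]
      simp only [star_mul']
      calc c ^ k * ev f z * (c ^ C.jd * ev C.J z) *
          (star (c ^ k') * star (ev g z) * (star (c ^ C.jd) * star (ev C.J z))) *
          (Real.exp (-C.u z) : ℂ)
          = (c ^ k * star (c ^ k')) * (c ^ C.jd * star (c ^ C.jd)) *
            (ev f z * ev C.J z * (star (ev g z) * star (ev C.J z)) * (Real.exp (-C.u z) : ℂ)) := by
            ring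
        _ = -(ev f z * ev C.J z * (star (ev g z) * star (ev C.J z)) *
            (Real.exp (-C.u z) : ℂ)) := by
            rw [hcc, h3]; ring
    rw [h2, integral_neg] at h1
    have h4 : ipp C f g = ∫ z in C.U, (ev f z * ev C.J z) * star (ev g z * ev C.J z) *
      (Real.exp (-C.u z) : ℂ) := rfl
    rw [← h4] at h1
    have h5 : (2 : ℂ) * ipp C f g = 0 := by
      linear_combination -h1
    exact (mul_eq_zero.mp h5).resolve_left two_ne_zero

end Pool.Agent.Helper58.KP
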