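import Pool.Agent.Helper85.KP.StE

/-!
# KP, module ESL: slopes in the case of equality
-/

set_option autoImplicit false

namespace Pool.Agent.Helper58.KP

open MeasureTheory Filter Pool.Agent.Helper52.KP Pool.Agent.Helper85.KP
open scoped ContDiff ComplexOrder Topology

/-! ### expansions -/

private lemma arch0 (b K : ℝ) (h : ∀ k : ℕ, 0 < k → |b| * k ≤ K) : b = 0 := by
  by_contra hb
  have hb' : 0 < |b| := abs_pos.mpr hb
  obtain ⟨k, hk⟩ := exists_nat_gt (K / |b|)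
  have h1 := h (k + 1) (Nat.succ_pos k)
  rw [div_lt_iff₀ hb'] at hk
  push_cast at h1
  nlinarith

private lemma arch1 (a b K : ℝ) (h : ∀ k : ℕ, 0 < k → |a * k + b| * k ≤ K) : a = 0 ∧ b = 0 := by
  have ha : a = 0 := by
    refine arch0 a (K + K) fun k hk => ?_
    have h1 := h k hk
    have h2 := h (2 * k) (by omega)
    have hk1 : (1 : ℝ) ≤ k := by exact_mod_cast hk
    have h0 : (0 : ℝ) ≤ K := le_trans (by positivity) h1
    push_cast at h2
    have e : a * k = (a * (2 * k) + b) - (a * k + b) := by ring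
    have h3 : |a| * k = |a * k| := by rw [abs_mul, abs_of_nonneg (by positivity : (0 : ℝ) ≤ k)]
    rw [h3, e]
    have h4 : |(a * (2 * k) + b) - (a * k + b)| ≤ |a * (2 * k) + b| + |a * k + b| := abs_sub _ _
    have h5 : |a * (2 * k) + b| ≤ K := by
      have : |a * (2 * k) + b| * 1 ≤ |a * (2 * k) + b| * (2 * k) :=
        mul_le_mul_of_nonneg_left (by linarith) (abs_nonneg _)
      linarith
    have h6 : |a * k + b| ≤ K := by
      have : |a * k + b| * 1 ≤ |a * k + b| * k :=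
        mul_le_mul_of_nonneg_left hk1 (abs_nonneg _)
      linarith
    linarith
  refine ⟨ha, arch0 b K fun k hk => ?_⟩
  have h1 := h k hk
  rwa [ha, zero_mul, zero_add] at h1

private lemma uniq2 (q : ℕ) (x : ℕ → ℝ) (a b K a' b' K' : ℝ)
    (h : ∀ k : ℕ, 0 < k → |x k - (a * k ^ (q + 1) + b * k ^ q)| * k ^ 2 ≤ K * k ^ (q + 1))
    (h' : ∀ k : ℕ, 0 < k → |x k - (a' * k ^ (q + 1) + b' * k ^ q)| * k ^ 2 ≤ K' * k ^ (q + 1)) :
    a = a' ∧ b = b' := by
  have key : ∀ k : ℕ, 0 < k → |(a - a') * k + (b - b')| * k ≤ K + K' := by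
    intro k hk
    have hk0 : (0 : ℝ) < k := by exact_mod_cast hk
    have h1 := h k hk
    have h2 := h' k hk
    have e : ((a - a') * k + (b - b')) * (k : ℝ) ^ q =
        (x k - (a' * k ^ (q + 1) + b' * k ^ q)) - (x k - (a * k ^ (q + 1) + b * k ^ q)) := by
      ring
    have h3 : |(a - a') * k + (b - b')| * (k : ℝ) ^ q ≤
        |x k - (a' * k ^ (q + 1) + b' * k ^ q)| + |x k - (a * k ^ (q + 1) + b * k ^ q)| := by
      have h4 : |(a - a') * k + (b - b')| * (k : ℝ) ^ q =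
          |((a - a') * k + (b - b')) * (k : ℝ) ^ q| := by
        rw [abs_mul, abs_of_nonneg (by positivity : (0 : ℝ) ≤ (k : ℝ) ^ q)]
      rw [h4, e]
      exact abs_sub _ _
    have h5 : |(a - a') * k + (b - b')| * (k : ℝ) ^ q * k ^ 2 ≤ (K + K') * k ^ (q + 1) := by
      calc |(a - a') * k + (b - b')| * (k : ℝ) ^ q * k ^ 2
          ≤ (|x k - (a' * k ^ (q + 1) + b' * k ^ q)| +
            |x k - (a * k ^ (q + 1) + b * k ^ q)|) * k ^ 2 :=
            mul_le_mul_of_nonneg_right h3 (by positivity)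
        _ ≤ (K + K') * k ^ (q + 1) := by
            rw [add_mul, add_mul]
            linarith
    have h6 : (|(a - a') * k + (b - b')| * k) * (k : ℝ) ^ (q + 1) ≤
        (K + K') * k ^ (q + 1) := by
      calc (|(a - a') * k + (b - b')| * k) * (k : ℝ) ^ (q + 1)
          = |(a - a') * k + (b - b')| * (k : ℝ) ^ q * k ^ 2 := by ring
        _ ≤ _ := h5
    exact le_of_mul_le_mul_right h6 (by positivity)
  obtain ⟨h1, h2⟩ := arch1 _ _ _ key
  exact ⟨sub_eq_zero.mp h1, sub_eq_zero.mp h2⟩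

private lemma tend (q : ℕ) (x : ℕ → ℝ) (a b K : ℝ)
    (h : ∀ k : ℕ, 0 < k → |x k - (a * k ^ (q + 1) + b * k ^ q)| * k ^ 2 ≤ K * k ^ (q + 1)) :
    Tendsto (fun k : ℕ => x k / (k : ℝ) ^ (q + 1)) atTop (𝓝 a) := by
  rw [tendsto_iff_norm_sub_tendsto_zero]
  have hb : Tendsto (fun k : ℕ => (|b| + |K|) / (k : ℝ)) atTop (𝓝 0) :=
    tendsto_const_div_atTop_nhds_zero_nat _
  refine squeeze_zero' (Eventually.of_forall fun k => norm_nonneg _) ?_ hb
  filter_upwards [eventually_gt_atTop 0] with k hk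
  have hk0 : (0 : ℝ) < k := by exact_mod_cast hk
  have hk1 : (1 : ℝ) ≤ k := by exact_mod_cast hk
  have h1 := h k hk
  have hp : (0 : ℝ) < (k : ℝ) ^ q := by positivity
  have e : x k / (k : ℝ) ^ (q + 1) - a =
      (x k - (a * k ^ (q + 1) + b * k ^ q)) / (k : ℝ) ^ (q + 1) + b / k := by
    rw [pow_succ]
    field_simp
    ring
  rw [Real.norm_eq_abs, e]
  refine (abs_add_le _ _).trans ?_
  have h2 : |(x k - (a * k ^ (q + 1) + b * k ^ q)) / (k : ℝ) ^ (q + 1)| ≤ |K| / k := by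
    rw [abs_div, abs_of_pos (by positivity : (0 : ℝ) < (k : ℝ) ^ (q + 1)),
      div_le_div_iff₀ (by positivity) hk0]
    have h3 : |x k - (a * k ^ (q + 1) + b * k ^ q)| * k ≤
        |x k - (a * k ^ (q + 1) + b * k ^ q)| * k ^ 2 :=
      mul_le_mul_of_nonneg_left (by nlinarith) (abs_nonneg _)
    have h4 : K * (k : ℝ) ^ (q + 1) ≤ |K| * (k : ℝ) ^ (q + 1) :=
      mul_le_mul_of_nonneg_right (le_abs_self K) (by positivity)
    linarith
  have h5 : |b / (k : ℝ)| = |b| / k := by rw [abs_div, abs_of_pos hk0]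
  rw [h5, add_div]
  linarith

private lemma exN {C : Cone} (hC : Good C) {r : ℕ}
    {F : ℕ → ℕ → Submodule ℂ (MvPolynomial (Fin C.m) ℂ)} {a₀ a₁ b₀ b₁ : ℝ}
    (h : Ex C r F a₀ a₁ b₀ b₁) :
    (∃ K : ℝ, ∀ k : ℕ, 0 < k → |(Module.finrank ℂ (C.R (C.n * r * k)) : ℝ) -
      (a₀ * k ^ ((2 * C.n - 2) + 1) + a₁ * k ^ (2 * C.n - 2))| * k ^ 2 ≤
        K * k ^ ((2 * C.n - 2) + 1)) ∧
    ∃ K : ℝ, ∀ k : ℕ, 0 < k → |wF F k -
      (b₀ * k ^ ((2 * C.n - 1) + 1) + b₁ * k ^ (2 * C.n - 1))| * k ^ 2 ≤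
        K * k ^ ((2 * C.n - 1) + 1) := by
  have hn := hC.hn
  obtain ⟨K, hK⟩ := h
  have e1 : 2 * C.n - 2 + 1 = 2 * C.n - 1 := by omega
  have e2 : 2 * C.n - 1 + 1 = 2 * C.n := by omega
  rw [e1, e2]
  exact ⟨⟨K, fun k hk => (hK k hk).1⟩, ⟨K, fun k hk => (hK k hk).2⟩⟩

/-- uniqueness of the expansions -/
private lemma ex_uniq {C : Cone} (hC : Good C) {r : ℕ}
    {F F' : ℕ → ℕ → Submodule ℂ (MvPolynomial (Fin C.m) ℂ)} {a₀ a₁ b₀ b₁ a₀' a₁' b₀' b₁' : ℝ}
    (hw : ∀ k, wF F' k = wF F k)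
    (h : Ex C r F a₀ a₁ b₀ b₁) (h' : Ex C r F' a₀' a₁' b₀' b₁') :
    a₀ = a₀' ∧ a₁ = a₁' ∧ b₀ = b₀' ∧ b₁ = b₁' := by
  obtain ⟨⟨K1, h1⟩, ⟨K2, h2⟩⟩ := exN hC h
  obtain ⟨⟨K1', h1'⟩, ⟨K2', h2'⟩⟩ := exN hC h'
  obtain ⟨e0, e1⟩ := uniq2 _ _ _ _ _ _ _ _ h1 h1'
  have h2'' : ∀ k : ℕ, 0 < k → |wF F k -
      (b₀' * k ^ ((2 * C.n - 1) + 1) + b₁' * k ^ (2 * C.n - 1))| * k ^ 2 ≤
        K2' * k ^ ((2 * C.n - 1) + 1) := by
    intro k hk
    rw [← hw k]
    exact h2' k hk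
  obtain ⟨e2, e3⟩ := uniq2 _ _ _ _ _ _ _ _ h2 h2''
  exact ⟨e0, e1, e2, e3⟩

private lemma ratio {C : Cone} (hC : Good C) {r : ℕ}
    {F : ℕ → ℕ → Submodule ℂ (MvPolynomial (Fin C.m) ℂ)} {a₀ a₁ b₀ b₁ : ℝ}
    (h : Ex C r F a₀ a₁ b₀ b₁) (ha : 0 < a₀) :
    Tendsto (fun k : ℕ => wF F k / (k * (Module.finrank ℂ (C.R (C.n * r * k)) : ℝ))) atTop
      (𝓝 (b₀ / a₀)) := by
  obtain ⟨⟨K1, h1⟩, ⟨K2, h2⟩⟩ := exN hC h
  have t1 := tend _ _ _ _ _ h1
  have t2 := tend _ _ _ _ _ h2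
  have t3 := t2.div t1 ha.ne'
  refine t3.congr' ?_
  filter_upwards [eventually_gt_atTop 0] with k hk
  have hk0 : (0 : ℝ) < k := by exact_mod_cast hk
  have hn := hC.hn
  have e : 2 * C.n - 1 + 1 = (2 * C.n - 2 + 1) + 1 := by omega
  simp only [Pi.div_apply]
  rw [e]
  have hp : (k : ℝ) ^ (2 * C.n - 2 + 1) ≠ 0 := by positivity
  rw [pow_succ (k : ℝ) (2 * C.n - 2 + 1)]
  rw [div_div_div_eq]
  rw [mul_comm (k : ℝ) (Module.finrank ℂ (C.R (C.n * r * k)) : ℝ)]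
  rw [mul_comm ((k : ℝ) ^ (2 * C.n - 2 + 1)) (k : ℝ), mul_assoc,
    mul_comm ((k : ℝ) ^ (2 * C.n - 2 + 1)) (Module.finrank ℂ (C.R (C.n * r * k)) : ℝ),
    ← mul_assoc]
  rw [mul_div_mul_right _ _ hp]
  rw [mul_comm (k : ℝ)]

/-! ### jumps -/

private lemma adp_finrank {C : Cone} {r k N : ℕ}
    {F : ℕ → ℕ → Submodule ℂ (MvPolynomial (Fin C.m) ℂ)}
    {s : Fin N → MvPolynomial (Fin C.m) ℂ} {lam : Fin N → ℕ} (h : Adp C r F k s lam) (l : ℕ) :
    Module.finrank ℂ (F k l) = (Finset.univ.filter fun j => l ≤ lam j).card := by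
  classical
  rw [h.span l]
  have h1 : s '' {j | l ≤ lam j} = Set.range (fun j : {j : Fin N // l ≤ lam j} => s j) := by
    ext x
    constructor
    · rintro ⟨j, hj, rfl⟩
      exact ⟨⟨j, hj⟩, rfl⟩
    · rintro ⟨⟨j, hj⟩, rfl⟩
      exact ⟨j, hj, rfl⟩
  have h2 : LinearIndependent ℂ (fun j : {j : Fin N // l ≤ lam j} => s j) :=
    h.li.comp (fun j : {j : Fin N // l ≤ lam j} => (j : Fin N)) Subtype.val_injective
  rw [h1, finrank_span_eq_card h2]
  rw [Fintype.card_subtype]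

private lemma sum_jumps {N : ℕ} (lam : Fin N → ℕ) (L : ℕ) (hL : ∀ j, lam j ≤ L) :
    ∑ l ∈ Finset.range L, ((Finset.univ.filter fun j => l + 1 ≤ lam j).card : ℝ) =
      ∑ j, (lam j : ℝ) := by
  classical
  have h1 : ∀ l, ((Finset.univ.filter fun j => l + 1 ≤ lam j).card : ℝ) =
      ∑ j, if l + 1 ≤ lam j then (1 : ℝ) else 0 := by
    intro l
    rw [Finset.sum_boole]
  simp_rw [h1]
  rw [Finset.sum_comm]
  refine Finset.sum_congr rfl fun j _ => ?_
  rw [Finset.sum_boole]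
  congr 1
  have : (Finset.range L).filter (fun l => l + 1 ≤ lam j) = Finset.range (lam j) := by
    ext l
    simp only [Finset.mem_filter, Finset.mem_range]
    have := hL j
    omega
  rw [this, Finset.card_range]

private lemma adp_wF {C : Cone} {r k N : ℕ}
    {F : ℕ → ℕ → Submodule ℂ (MvPolynomial (Fin C.m) ℂ)}
    {s : Fin N → MvPolynomial (Fin C.m) ℂ} {lam : Fin N → ℕ} (h : Adp C r F k s lam)
    (L : ℕ) (hL : ∀ j, lam j ≤ L) : wF F k = ∑ j, (lam j : ℝ) := by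
  classical
  unfold wF
  rw [← sum_jumps lam L hL]
  rw [finsum_eq_sum_of_support_subset (s := Finset.range L)]
  · refine Finset.sum_congr rfl fun l _ => ?_
    rw [adp_finrank h]
  · intro l hl
    rw [Function.mem_support] at hl
    rw [Finset.coe_range, Set.mem_Iio]
    by_contra hcon
    apply hl
    rw [adp_finrank h]
    have : (Finset.univ.filter fun j => l + 1 ≤ lam j) = (∅ : Finset (Fin N)) := by
      rw [Finset.filter_eq_empty_iff]
      intro j _ hj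
      have := hL j
      omega
    rw [this]
    simp

private lemma adp_N {C : Cone} {r k N : ℕ}
    {F : ℕ → ℕ → Submodule ℂ (MvPolynomial (Fin C.m) ℂ)} (hF : NF C r F)
    {s : Fin N → MvPolynomial (Fin C.m) ℂ} {lam : Fin N → ℕ} (h : Adp C r F k s lam) :
    Module.finrank ℂ (C.R (C.n * r * k)) = N := by
  have h1 := adp_finrank h 0
  rw [hF.zero k] at h1
  rw [h1]
  simp

/-- bound of the jumps -/
private lemma jump_bd {C : Cone} {r : ℕ}
    {F F' : ℕ → ℕ → Submodule ℂ (MvPolynomial (Fin C.m) ℂ)}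
    (hfr : ∀ k l, Module.finrank ℂ (F' k l) = Module.finrank ℂ (F k l)) {Λ : ℕ}
    (hΛ : ∀ k l, Λ * k < l → F k l = ⊥) {k N : ℕ}
    {s : Fin N → MvPolynomial (Fin C.m) ℂ} {lam : Fin N → ℕ} (h : Adp C r F' k s lam)
    (j : Fin N) : lam j ≤ Λ * k := by
  by_contra hcon
  push Not at hcon
  have h1 : F k (lam j) = ⊥ := hΛ k (lam j) hcon
  have h2 : Module.finrank ℂ (F' k (lam j)) = 0 := by
    rw [hfr, h1]
    exact finrank_bot ℂ _
  rw [adp_finrank h, Finset.card_eq_zero, Finset.filter_eq_empty_iff] at h2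
  exact h2 (Finset.mem_univ j) le_rfl

/-! ### the main argument -/

private lemma tangent (V : ℝ → ℝ) (hV : ConvexOn ℝ Set.univ V) (T v : ℝ)
    (hd : HasDerivAt V v T) (t : ℝ) : V T + v * (t - T) ≤ V t := by
  rcases lt_trichotomy t T with h | h | h
  · have h1 := hV.slope_le_of_hasDerivAt (Set.mem_univ t) (Set.mem_univ T) h hd
    rw [slope_def_field, div_le_iff₀ (by linarith)] at h1
    nlinarith
  · subst h
    simp
  · have h1 := hV.le_slope_of_hasDerivAt (Set.mem_univ T) (Set.mem_univ t) h hd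
    rw [slope_def_field, le_div_iff₀ (by linarith)] at h1
    nlinarith

private lemma nu_compl (hNUL : StNUL) (C : Cone) (hC : Good C) (A : Set (Fin C.m → ℂ)) :
    C.nu A ≤ C.nu {z | z ∈ C.U ∧ z ∈ A} := by
  have h0 : C.nu C.Uᶜ = 0 := by
    have h1 : volume C.Uᶜ = 0 := by
      have e : C.Uᶜ = {z : Fin C.m → ℂ | ev C.Δ z = 0} := by
        ext z
        simp [Cone.U]
      rw [e]
      exact hNUL C.m C.Δ hC.Δ0
    exact (withDensity_absolutelyContinuous volume _) h1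
  have h2 : A ⊆ {z | z ∈ C.U ∧ z ∈ A} ∪ C.Uᶜ := by
    intro z hz
    by_cases hU : z ∈ C.U
    · exact Or.inl ⟨hU, hz⟩
    · exact Or.inr hU
  calc C.nu A ≤ C.nu ({z | z ∈ C.U ∧ z ∈ A} ∪ C.Uᶜ) := measure_mono h2
    _ ≤ C.nu {z | z ∈ C.U ∧ z ∈ A} + C.nu C.Uᶜ := measure_union_le _ _
    _ = C.nu {z | z ∈ C.U ∧ z ∈ A} := by rw [h0, add_zero]

private lemma slo_of_tangent (hLEV : StLEV) (hCVX : StCVX) (hDIF : StDIF) (hNUL : StNUL)
    (C : Cone) (hC : Good C) (r : ℕ) (F : ℕ → ℕ → Submodule ℂ (MvPolynomial (Fin C.m) ℂ))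
    (hF : NF C r F) (k N : ℕ) (hk : 0 < k) (s : Fin N → MvPolynomial (Fin C.m) ℂ)
    (lam : Fin N → ℕ) (hs : Adp C r F k s lam)
    (hsp : Submodule.span ℂ (Set.range s) = C.R (C.n * r * k)) (T : ℝ) :
    Slo C r F (UD C s lam T) := by
  intro N₁ s₁ lam₁ hs₁ ε hε
  have hD : 0 < C.n * r * k := Nat.mul_pos (Nat.mul_pos hC.hn hF.hr) hk
  obtain ⟨B, hB, hBt⟩ := hLEV C hC r F hF k hk N₁ N s₁ lam₁ s lam hs₁ hs
  have hconv := hCVX C hC (C.n * r * k) N hD s lam hsp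
  have hder : HasDerivAt (fun t => -Real.log (C.ZZ s lam t)) (UD C s lam T) T := by
    obtain ⟨hpos, -, hd, -⟩ := hDIF C hC (C.n * r * k) N hD s lam hsp T
    have h1 := (hd.log hpos.ne').neg
    refine h1.congr_deriv ?_
    unfold UD
    rw [neg_div, neg_neg]
  set V : ℝ → ℝ := fun t => -Real.log (C.ZZ s lam t) with hVdef
  set v := UD C s lam T with hv
  refine ⟨B * B * Real.exp (-(V T - v * T)), fun t ht => ?_⟩
  obtain ⟨c1, -, c3, -⟩ := hBt t ht
  have hpos : 0 < C.ZZ s lam t := (hDIF C hC (C.n * r * k) N hD s lam hsp t).1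
  have htan := tangent V hconv T v hder t
  have hZ : C.ZZ s lam t = Real.exp (-V t) := by
    rw [hVdef]
    simp only [neg_neg]
    rw [Real.exp_log hpos]
  have hZ2 : C.ZZ s lam t ≤ Real.exp (-(V T - v * T)) * Real.exp (-((v - ε) * t)) := by
    rw [hZ, ← Real.exp_add]
    apply Real.exp_le_exp.mpr
    have : 0 ≤ ε * t := mul_nonneg hε.le ht
    nlinarith
  refine (nu_compl hNUL C hC _).trans ?_
  refine c3.trans ?_
  apply ENNReal.ofReal_le_ofReal
  calc B * C.ZZ s₁ lam₁ t ≤ B * (B * C.ZZ s lam t) := mul_le_mul_of_nonneg_left c1 hB.le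
    _ ≤ B * (B * (Real.exp (-(V T - v * T)) * Real.exp (-((v - ε) * t)))) :=
        mul_le_mul_of_nonneg_left (mul_le_mul_of_nonneg_left hZ2 hB.le) hB.le
    _ = B * B * Real.exp (-(V T - v * T)) * Real.exp (-((v - ε) * t)) := by ring

theorem hESL (hALG : StALG) (hLEV : StLEV) (hDER : StDER) (_hUPB : StUPB) (hCVX : StCVX)
    (hDIF : StDIF) (hADP : StADP) (hNUL : StNUL) : StESL := by
  intro C hC r F hF a₀ a₁ b₀ b₁ hEx hDF
  obtain ⟨Λ₀, hΛ₀⟩ := hADP C hC r F hF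
  have hbot : ∀ k l, Λ₀ * k < l → F k l = ⊥ := fun k l h => (hΛ₀ k).1 l h
  have hlam : ∀ F', NF C r F' → (∀ k l, Module.finrank ℂ (F' k l) = Module.finrank ℂ (F k l)) →
      ∀ (k N : ℕ) (s : Fin N → MvPolynomial (Fin C.m) ℂ) (lam : Fin N → ℕ),
        Adp C r F' k s lam → ∀ j, lam j ≤ (Λ₀ + 1) * k := by
    intro F' _ hfr k N s lam hs j
    exact (jump_bd hfr hbot hs j).trans (Nat.mul_le_mul_right k (Nat.le_succ Λ₀))
  refine ⟨Λ₀ + 1, Nat.succ_pos _, fun F' hF' hfr k N s lam _ hs j =>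
    hlam F' hF' hfr k N s lam hs j, ?_⟩
  intro ε hε
  -- a₀ > 0
  have ha : 0 < a₀ := by
    obtain ⟨a₀', a₁', b₀', b₁', ha', hEx', -⟩ := hALG C hC r F hF
    obtain ⟨e, -⟩ := ex_uniq hC (fun _ => rfl) hEx hEx'
    rw [e]
    exact ha'
  have hr0 : (0 : ℝ) < r := by exact_mod_cast hF.hr
  -- the derivative at zero
  have hder := hDER C hC (Λ₀ + 1 : ℕ) (ε / 2) (by linarith)
  obtain ⟨D₀, hD₀⟩ := eventually_atTop.mp hder
  -- the quotient
  have hrat := (ratio hC hEx ha).div_const (r : ℝ)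
  have hrat2 : ∀ᶠ k : ℕ in atTop, b₀ / a₀ / r - ε / 2 <
      wF F k / (k * (Module.finrank ℂ (C.R (C.n * r * k)) : ℝ)) / r :=
    hrat.eventually (lt_mem_nhds (by linarith))
  obtain ⟨k₁, hk₁⟩ := eventually_atTop.mp hrat2
  refine ⟨max (max k₁ D₀) 1, ?_⟩
  intro k hk F' hF' hfr N s lam hs honb t _
  have hk1 : k₁ ≤ k := le_trans (le_trans (le_max_left _ _) (le_max_left _ _)) hk
  have hkD : D₀ ≤ k := le_trans (le_trans (le_max_right _ _) (le_max_left _ _)) hk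
  have hk0 : 0 < k := le_trans (le_max_right _ _) hk
  have hk0' : (0 : ℝ) < k := by exact_mod_cast hk0
  have hnr : 1 ≤ C.n * r := Nat.mul_pos hC.hn hF.hr
  have hDk : k ≤ C.n * r * k := Nat.le_mul_of_pos_left k hnr
  have hw : ∀ k, wF F' k = wF F k := by
    intro k
    unfold wF
    refine finsum_congr fun l => ?_
    rw [hfr]
  -- upper bound
  have hup : UD C s lam t ≤ b₀ / a₀ / r := by
    have hslo := slo_of_tangent hLEV hCVX hDIF hNUL C hC r F' hF' k N hk0 s lam hs honb.span t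
    obtain ⟨a₀', a₁', b₀', b₁', ha', hEx', hl⟩ := hALG C hC r F' hF'
    obtain ⟨e0, e1, e2, e3⟩ := ex_uniq hC hw hEx hEx'
    subst e0 e1 e2 e3
    have h1 := (hl _ hslo).1
    have h2 : 2 * (a₁ * b₀ - a₀ * b₁) = 0 := by rw [hDF]; ring
    rw [h2] at h1
    have h3 : UD C s lam t * a₀ - b₀ / r ≤ 0 := by
      by_contra hcon
      push Not at hcon
      have := mul_pos ha hcon
      linarith
    rw [div_right_comm, le_div_iff₀ ha]
    linarith
  -- lower bound at zero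
  have hlow : b₀ / a₀ / r - ε ≤ UD C s lam 0 := by
    have h1 := hD₀ (C.n * r * k) (hkD.trans hDk) N s lam honb (by
      intro j
      have h2 := hlam F' hF' hfr k N s lam hs j
      have h3 : lam j ≤ (Λ₀ + 1) * (C.n * r * k) :=
        h2.trans (Nat.mul_le_mul_left _ hDk)
      exact_mod_cast h3)
    have h4 := hk₁ k hk1
    have hN := adp_N hF' hs
    have hwk : wF F k = ∑ j, (lam j : ℝ) := by
      rw [← hw k]
      exact adp_wF hs ((Λ₀ + 1) * k) (hlam F' hF' hfr k N s lam hs)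
    rw [hN, hwk] at h4
    have e : (C.m : ℝ) / (2 * ((C.n * r * k : ℕ) : ℝ)) * ((∑ j, (lam j : ℝ)) / N) =
        (∑ j, (lam j : ℝ)) / (k * (N : ℝ)) / r := by
      have hn0 : (C.n : ℝ) ≠ 0 := by
        have := hC.hn
        positivity
      have h6 : (C.m : ℝ) / (2 * ((C.n * r * k : ℕ) : ℝ)) = 1 / (r * k) := by
        rw [hC.hm]
        push_cast
        field_simp
      rw [h6]
      ring
    rw [e] at h1
    have h5 := (abs_le.mp h1).1
    unfold UD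
    linarith
  linarith

end Pool.Agent.Helper58.KP
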